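import Mathlib
import Pool.Agent.Work.MP_d3af15_an.Defs
import Pool.Agent.Work.MP_d3af15_an.Proof

/-!
# MP_d3af15_an: compactness of `T - U` fails

There are a singular quasi-linear map `Φ` on real `l_2` and a pair `(T, U)` compatible with `Φ`
such that `T - U` is not compact; in fact `T - U` is invertible, and `Φ` may be taken to be
the Kalton-Peck map followed by `diag(1,2,1,2,...)`, which is a centralizer.
-/

namespace Pool.Agent.Results.MP_d3af15_an.NonCompactDifference

open Pool.Agent.Work.MP_d3af15_an

theorem result :
    ∃ Φ : H → H, QuasiLinear Φ ∧ Singular Φ ∧ IsTwistedKaltonPeck Φ ∧ IsCentralizer Φ ∧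
      HasNonCompactDifference Φ :=
  main

end Pool.Agent.Results.MP_d3af15_an.NonCompactDifference
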